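import Pool.Agent.X259.T.T35

set_option autoImplicit false

/-!
# The Mumford-Tate conjecture for an abelian variety is decided by one class of codimension two on
# its fourth power

Let `A` be an abelian variety of dimension at least one, of any type, over the algebraic closure
`k` (in the field of complex numbers) of a field `k₁` finitely generated over `ℚ`, with a model
over `k₁`, and let `ℓ` be a prime number. `W = H_1(A(ℂ), ℚ)` is the rational homology, `T` the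
tangent space, `per` the inclusion of `W` in `T`, and `ω₀` the Riemann form of a polarization.
`V = ℚ_ℓ ⊗ W` is the rational Tate module, with the continuous action `ρ` of the (compact) Galois
group `Γ` of `k₁` and with the Weil pairing `ω`, the extension of `ω₀`; `χ` is the cyclotomic
character.

The classes in `H^1(A) ^ {⊗ 2 m} (m)` are the multilinear forms in `2 m` variables (indexed by
`Fin m × Fin 2`) in `W` or `V`. As the groups are reductive (Faltings), the Mumford-Tate conjecture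
says that for all `m` the Tate classes in `H^1(A) ^ {⊗ 2 m} (m)` (fixed by an open subgroup of the
Galois group) are linear combinations of Hodge classes.

Let `𝔤` be the Lie algebra of the endomorphisms of `V` which annihilate all Tate classes
(`InLie`). Its trace form is nondegenerate, and the *Casimir class* is the form
`Θ (u, v, w, z) = ω (E u v w) z` in `H^1(A) ^ {⊗ 4} (2)`, where `E u v` is the unique element of `𝔤`
with `trace (E u v * X) = ω (X u) v` for all `X` in `𝔤` (`IsCasimir`).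

**Theorem.**

1. There is exactly one Casimir class `Θ`. It is a Tate class on `A ^ 4`, of codimension two, and it
   is fixed by the whole Galois group of `k₁`.
2. The Mumford-Tate conjecture holds for `A` if and only if `Θ` is a linear combination of Hodge
   classes.
3. It also holds if, for one `m ≥ 2`, the Tate classes in `H^1(A) ^ {⊗ 2 m} (m)` are linear
   combinations of Hodge classes.

The hypotheses `hss`, `hF` (Faltings: semisimplicity and endomorphisms), `hD` (Deligne: Hodge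
classes are Tate classes) and `hC` (the Mumford-Tate conjecture holds for the centres; Vasiu,
Ullmo-Yafaev) are theorems for all abelian varieties.

The proof. The Lie algebra `𝔤` is the one of the image of the Galois group, up to homotheties. If an
endomorphism commutes with `𝔤` then it is in `End(A) ⊗ ℚ_ℓ`. If `Θ` is a combination of Hodge classes,
an endomorphism `Z` of `W` which annihilates all Hodge classes annihilates `Θ`, so `ad Z`
is a derivation of `𝔤`, which is inner; so `Z` is the sum of an element of `𝔤` and a central element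
of `End(A) ⊗ ℚ_ℓ`, and the latter is in `𝔤` by the theorem on centres. So all Tate classes are
annihilated by the Lie algebra of the Hodge group. For the third part: a Tate class times the
polarization is a Tate class, and the contraction gives back the class.
-/

noncomputable section

namespace Pool.Agent.Results.MP_33b3f9_ag.CasimirDecides

open Module TensorProduct Pool.Agent.H204R3.GP Pool.Agent.W516.MTD

variable {ℓ : ℕ} [Fact ℓ.Prime] {W T : Type} [AddCommGroup W] [Module ℚ W] [AddCommGroup T]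
  [Module ℂ T] {Γ : Type} [Group Γ]

/-- The classes in `H^1(A, ℚ_ℓ) ^ {⊗ 2 m} (m)`. -/
abbrev Form (ℓ : ℕ) [Fact ℓ.Prime] (W : Type) [AddCommGroup W] [Module ℚ W] (m : ℕ) : Type :=
  MultilinearMap ℚ_[ℓ] (fun _ : Fin m × Fin 2 => ℚ_[ℓ] ⊗[ℚ] W) ℚ_[ℓ]

/-- `X` is in the Lie algebra `𝔤`: it annihilates all Tate classes. -/
def InLie (ρ : Representation ℚ_[ℓ] Γ (ℚ_[ℓ] ⊗[ℚ] W)) (χ : Γ →* ℚ_[ℓ])
    (X : Module.End ℚ_[ℓ] (ℚ_[ℓ] ⊗[ℚ] W)) : Prop :=
  ∀ (m : ℕ) (φ : Form ℓ W m), IsTateTensor ρ χ m φ → Annihilates X φ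

/-- `Θ` is the Casimir class of the Lie algebra `𝔤`. -/
def IsCasimir (ρ : Representation ℚ_[ℓ] Γ (ℚ_[ℓ] ⊗[ℚ] W)) (χ : Γ →* ℚ_[ℓ])
    (ω : ℚ_[ℓ] ⊗[ℚ] W →ₗ[ℚ_[ℓ]] ℚ_[ℓ] ⊗[ℚ] W →ₗ[ℚ_[ℓ]] ℚ_[ℓ]) (Θ : Form ℓ W 2) : Prop :=
  ∃ E : ℚ_[ℓ] ⊗[ℚ] W → ℚ_[ℓ] ⊗[ℚ] W → Module.End ℚ_[ℓ] (ℚ_[ℓ] ⊗[ℚ] W),
    (∀ u v, InLie ρ χ (E u v)) ∧
    (∀ u v X, InLie ρ χ X → LinearMap.trace ℚ_[ℓ] _ (E u v * X) = ω (X u) v) ∧
    ∀ v, Θ v = ω (E (v (0, 0)) (v (0, 1)) (v (1, 0))) (v (1, 1))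

/-- The Tate classes in `H^1(A) ^ {⊗ 2 m} (m)` are linear combinations of Hodge classes. -/
def TateIsHodge (per : W →+ T) (ρ : Representation ℚ_[ℓ] Γ (ℚ_[ℓ] ⊗[ℚ] W)) (χ : Γ →* ℚ_[ℓ])
    (m : ℕ) : Prop :=
  ∀ φ : Form ℓ W m, IsTateTensor ρ χ m φ → IsHodgeCombination per φ

/-- **The Casimir class decides.** -/
theorem result [FiniteDimensional ℚ W] (hW : finrank ℚ W ≠ 0)
    -- the complex torus `A(ℂ)` with a polarization
    (per : W →+ T) (hper : IsRationalStructure per)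
    (ω₀ : W →ₗ[ℚ] W →ₗ[ℚ] ℚ) (hω₀ : IsRiemannForm per ω₀)
    -- the Galois group, its action on the Tate module and the Weil pairing
    [TopologicalSpace Γ] [IsTopologicalGroup Γ] [CompactSpace Γ]
    (ρ : Representation ℚ_[ℓ] Γ (ℚ_[ℓ] ⊗[ℚ] W))
    (hρ : ∀ (v : ℚ_[ℓ] ⊗[ℚ] W) (f : ℚ_[ℓ] ⊗[ℚ] W →ₗ[ℚ_[ℓ]] ℚ_[ℓ]), Continuous fun s => f (ρ s v))
    (χ : Γ →* ℚ_[ℓ]) (hχ : Continuous χ)
    (ω : ℚ_[ℓ] ⊗[ℚ] W →ₗ[ℚ_[ℓ]] ℚ_[ℓ] ⊗[ℚ] W →ₗ[ℚ_[ℓ]] ℚ_[ℓ])
    (hωω : ∀ u v : W, ω ((1 : ℚ_[ℓ]) ⊗ₜ[ℚ] u) ((1 : ℚ_[ℓ]) ⊗ₜ[ℚ] v) = ((ω₀ u v : ℚ) : ℚ_[ℓ]))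
    (hωρ : ∀ s u v, ω (ρ s u) (ρ s v) = χ s * ω u v)
    -- the theorems of Faltings and Deligne and the theorem on centres
    (hss : Semisimple ρ) (hF : Faltings per ρ) (hD : Deligne per ρ χ) (hC : Centres per ρ χ) :
    ∃ Θ : Form ℓ W 2,
      -- 1
      (∀ Θ', IsCasimir ρ χ ω Θ' ↔ Θ' = Θ) ∧ (∀ s v, Θ (fun l => ρ s (v l)) = χ s ^ 2 * Θ v) ∧
      -- 2
      ((∀ m : ℕ, TateIsHodge per ρ χ m) ↔ IsHodgeCombination per Θ) ∧
      -- 3
      ∀ m : ℕ, 2 ≤ m → ((∀ m' : ℕ, TateIsHodge per ρ χ m') ↔ TateIsHodge per ρ χ m) := by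
  classical
  have hωω' : ∀ u v : W, ω ((1 : ℚ_[ℓ]) ⊗ₜ[ℚ] u) ((1 : ℚ_[ℓ]) ⊗ₜ[ℚ] v) =
      algebraMap ℚ ℚ_[ℓ] (ω₀ u v) := fun u v => by rw [hωω, eq_ratCast]
  have hnt := Pool.Agent.X259.Q.trace_nondeg per ρ χ ω₀ ω hper hω₀ hωω' hωρ hD hF hss hC hρ hχ
  obtain ⟨hinv, hdec⟩ := Pool.Agent.X259.Q.casimir_decides per ρ χ ω₀ ω hper hω₀ hωω' hωρ hD hF hC
    hρ hχ hnt
  set 𝔤 := Pool.Agent.H204R3.SP.lieT ρ χ with h𝔤
  set Θ := Pool.Agent.W516.KC2.casimir 𝔤 hnt ω with hΘ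
  have hcas : IsCasimir ρ χ ω Θ := by
    refine ⟨Pool.Agent.W516.KC2.EE 𝔤 hnt ω, ?_, ?_, ?_⟩
    · intro u v
      exact Pool.Agent.W516.KC2.EE_mem 𝔤 hnt ω u v
    · intro u v X hX
      exact Pool.Agent.W516.KC2.EE_trace 𝔤 hnt ω u v (X := X) hX
    · intro v
      exact Pool.Agent.W516.KC2.casimir_apply 𝔤 hnt ω v
  have htate : IsTateTensor ρ χ 2 Θ := ⟨⊤, inferInstance, fun s _ v => hinv s v⟩
  obtain ⟨β, β', hβ⟩ := Pool.Agent.X259.T.exists_dual hper hω₀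
  have desc : ∀ {n : ℕ} (φ : Form ℓ W n), IsHodgeCombination per φ ↔
      ∀ lam : ℚ_[ℓ] →ₗ[ℚ] ℚ, Pool.Agent.W516.DR.fcmp lam φ ∈ Pool.Agent.X259.T.Hd per n :=
    fun {n} φ => ⟨fun h lam => Pool.Agent.X259.Q.fcmp_mem (Pool.Agent.X259.T.Hd per n) h lam,
      fun h => Pool.Agent.X259.Q.mem_of_fcmp (Pool.Agent.X259.T.Hd per n) h⟩
  refine ⟨Θ, fun Θ' => ⟨?_, ?_⟩, hinv, ⟨fun h => h 2 Θ htate, hdec⟩, fun m hm =>
    ⟨fun h => h m, fun h => hdec ?_⟩⟩
  · rintro ⟨E', h1, h2, h3⟩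
    obtain ⟨E, h1', h2', h3'⟩ := hcas
    have hE : ∀ u v, E' u v = E u v := fun u v =>
      Pool.Agent.W516.KC2.ext_trace 𝔤 hnt (h1 u v) (h1' u v) fun Z hZ => by
        rw [h2 u v Z hZ, h2' u v Z hZ]
    ext v
    rw [h3, h3', hE]
  · rintro rfl
    exact hcas
  · refine (desc Θ).2 ?_
    exact Pool.Agent.X259.T.tate_down hW hβ (Pool.Agent.X259.T.closed_hodge hper hω₀ hβ) ρ χ ω hωω
      hωρ hm (fun φ hφ => (desc φ).1 (h φ hφ)) Θ htate

end Pool.Agent.Results.MP_33b3f9_ag.CasimirDecides
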