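import Pool.Agent.Results.MP_90d181_ag.IndependentDeterminants
import Pool.Agent.Results.MP_802513_ag.HodgeFromFrobenius
import Pool.Agent.X274.DI.Val

/-!
# The Mumford-Tate conjecture for abelian varieties with real or complex multiplication by any
# fields, from a few Frobenius polynomials and one Frobenius determinant

Let `A_0, ..., A_r` be abelian varieties over a finitely generated subfield `k` of the complex numbers
and `A` the product of powers of them. A number field `E_i`, Galois over `ℚ` (`E_i = ℚ` is allowed),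
acts on `A_i` (up to isogeny), with the adjoints `bar a` (`a ∈ E_i`) for the form `J_i` of a polarization:
either `bar = 1` (`E_i` is totally real), or `E_i` is a CM field and `bar` is the complex conjugation.
Let `n_i` be the dimension over `E_i` of `W_i = H^1(A_i(ℂ), ℚ)`. At the places `v` of good reduction let
`P_{i,v}` be the characteristic polynomial of the Frobenius element on `A_i`, and `d_{i,v} ∈ E_i` its
determinant over `E_i`.

**Theorem.** Suppose that
(1) for every `i` there is a place `v` such that the roots of `P_{i,v}` are simple and `x / y = z / u` for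
roots `x ≠ y`, `z`, `u` only in the trivial cases;
(2) for every `i` the conditions on finitely many polynomials `P_{i,v}` of the definition `EnoughPlaces`
hold;
(3) for `i ≠ j` there is a place `v` such that the roots of `P_{i,v}` are simple and no quotient of two
different roots of `P_{i,v}` is a quotient of two roots of `P_{j,v}`;
(4) there is a place `v`, with norm `q`, such that a product of conjugates `τ(d_{i,v})` (for the CM fields
`E_i`, `τ` a complex embedding of `E_i`, with repetitions) is a root of unity times a power of `q` only if the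
embeddings `τ` and `τ ∘ bar` of `E_i` occur equally often in it, for all `i` and `τ`.
Then for all primes `ℓ` outside of a set of natural density zero, every Tate class in the tensor powers of
`H^1(A, ℚ_ℓ)`, of any degree and twist, is a linear combination with coefficients in `ℚ_ℓ` of Hodge
classes. This is the Mumford-Tate conjecture for `A` and `ℓ`: by the theorems of Faltings and Deligne the
Zariski closure `G` of the image of `U` is reductive and contained in `MT(A)`, and both groups are
determined by their invariants, the Tate classes and the Hodge classes. By a theorem of Larsen and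
Pink the conjecture for one prime `ℓ` implies the one for all primes: if this theorem is given (the
hypothesis in the last line of the statement), then **the statement holds for all `ℓ`**.

All hypotheses can be checked on finitely many reductions (by counting points). Nothing is assumed
about endomorphism rings, Mumford-Tate groups or dimensions. The type IV is allowed; condition (4)
excludes abelian varieties of Weil type. In the starting results for this problem the abelian
varieties have a Frobenius element of a special kind (in the sense of Newton slopes, or of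
multiplicative relations of all its eigenvalues), or a place of bad reduction.

In the Lean statement `W_i = ℚ ^ (N_i)`; the classes are the multilinear forms in `k` variables on
`W_0 ⊕ ... ⊕ W_r` (the polarizations identify `W_i` with its dual), a Hodge class is a rational form which
is invariant under the circle group, `h θ i` is the action of `e ^ (i θ)`. The polarizations and the
coefficients are compatible with it (`hh`). The group `Γ` is the Galois group of `k` (or a quotient of it
which acts), and `s` comes from a closed point of a model of `k`, with residue field `K` (if `k` is a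
number field, then `K = k` and `s = id`). The result `IndependentDeterminants` (problem `MP_90d181_ag`) shows
that the Tate classes are combinations of products of the `J_i(a x, y)`; these are Hodge classes.
-/

set_option autoImplicit false

namespace Pool.Agent.Results.MP_33b3f9_ag.MumfordTateFromFrobenius

open Matrix Polynomial Filter Topology NumberField IsDedekindDomain
open Pool.Agent.Results.MP_938ce2_ag.DeterminantClasses (AbsoluteGaloisGroup IsFrobenius
  IsMotivicFamily IsGenericPlace EnoughPlaces IsIndependent HasDensityZero)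
open Pool.Agent.Results.MP_802513_ag.HodgeFromFrobenius (form IsHodgeClass adic)
open Pool.Agent.Results.MP_90d181_ag.IndependentDeterminants (HasDeterminant AreIndependent
  IsPairingProduct AllTateClassesFromPairings)

/-- every Tate class of any degree `k` and twist `m` on the direct sum of the spaces
`ℚ_ℓ ^ (N i) = ℚ_ℓ ⊗ W_i`, that is every multilinear form `φ` in `k` variables which satisfies
`φ(σ v) = χ(σ) ^ m φ(v)` for all `σ` in an open subgroup, is a linear combination with coefficients in `ℚ_ℓ`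
of (rational) Hodge classes -/
def TateClassesAreHodge {Γ : Type} [Group Γ] [TopologicalSpace Γ] {r : ℕ}
    {N : Fin (r + 1) → ℕ} (h : ℝ → ∀ i, Matrix (Fin (N i)) (Fin (N i)) ℝ) (ℓ : ℕ) [Fact ℓ.Prime]
    (χ : Γ →* ℚ_[ℓ]) (ρ : ∀ i, Γ →* Matrix (Fin (N i)) (Fin (N i)) ℚ_[ℓ]) : Prop :=
  ∀ (k : ℕ) (m : ℤ) (φ : MultilinearMap ℚ_[ℓ] (fun _ : Fin k => ∀ i, Fin (N i) → ℚ_[ℓ]) ℚ_[ℓ])
    (U : Subgroup Γ), IsOpen (U : Set Γ) →
    (∀ σ ∈ U, ∀ v, φ (fun j i => ρ i σ *ᵥ v j i) = χ σ ^ m * φ v) →
    (fun v => φ v) ∈ Submodule.span ℚ_[ℓ] {f : (Fin k → ∀ i, Fin (N i) → ℚ_[ℓ]) → ℚ_[ℓ] |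
      ∃ c : (Fin k → Σ i, Fin (N i)) → ℚ, IsHodgeClass h c ∧ f = fun v => form ℚ_[ℓ] c v}

/-- the matrix over the real numbers with the same entries -/
noncomputable def real {N : ℕ} (A : Matrix (Fin N) (Fin N) ℚ) : Matrix (Fin N) (Fin N) ℝ :=
  A.map fun x : ℚ => (x : ℝ)

theorem val_of_product {r : ℕ} {N : Fin (r + 1) → ℕ} (ℓ : ℕ) [Fact ℓ.Prime]
    {E : Fin (r + 1) → IntermediateField ℚ (AlgebraicClosure ℚ)}
    (ε : ∀ i, E i →+* Matrix (Fin (N i)) (Fin (N i)) ℚ)
    (J : ∀ i, Matrix (Fin (N i)) (Fin (N i)) ℚ) {k : ℕ} {A : Finset (Fin k)}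
    {f : (Fin k → ∀ i, Fin (N i) → ℚ_[ℓ]) → ℚ_[ℓ]}
    (hf : IsPairingProduct ℓ (fun i => ((Rat.castHom ℚ_[ℓ]).mapMatrix).comp (ε i))
      (fun i => adic ℓ (J i)) A f) :
    ∃ F : ∀ (L : Type) [Field L] [CharZero L], (Fin k → ∀ i, Fin (N i) → L) → L,
      X274.DI.Val k (fun i (a : E i) => ε i a) J A F ∧ f = F ℚ_[ℓ] := by
  induction hf with
  | one => exact ⟨fun _ _ _ _ => 1, X274.DI.Val.one, rfl⟩
  | @pairing A f i a j j' hne hj hj' h ih =>
    obtain ⟨F, hF, hfF⟩ := ih
    have h1 := X274.DI.Val.pair (ε := fun i (a : E i) => ε i a) (J := J) i a j j' hne hj hj' hF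
    refine ⟨_, h1, ?_⟩
    funext v
    rw [hfF]
    rfl

/-- **The Mumford-Tate conjecture for products of powers of abelian varieties with independent
determinants.** -/
theorem result (K : Type) [Field K] [NumberField K] (Γ : Type) [Group Γ] [TopologicalSpace Γ]
    [IsTopologicalGroup Γ] [CompactSpace Γ] (s : AbsoluteGaloisGroup K →* Γ) (hs : Continuous s)
    (S : Set (HeightOneSpectrum (𝓞 K))) (hS : S.Finite)
    (r : ℕ) (N n : Fin (r + 1) → ℕ) (w : Fin (r + 1) → ℤ) (hw : ∃ i, w i ≠ 0)
    (P : Fin (r + 1) → HeightOneSpectrum (𝓞 K) → ℚ[X])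
    (χ : ∀ (ℓ : ℕ) [Fact ℓ.Prime], Γ →* ℚ_[ℓ])
    (ρ : ∀ (ℓ : ℕ) [Fact ℓ.Prime] (i : Fin (r + 1)), Γ →* Matrix (Fin (N i)) (Fin (N i)) ℚ_[ℓ])
    (J : ∀ i : Fin (r + 1), Matrix (Fin (N i)) (Fin (N i)) ℚ)
    (hρ : ∀ (ℓ : ℕ) [Fact ℓ.Prime], IsMotivicFamily K s N w ℓ (χ ℓ) (ρ ℓ)
      (fun i => adic ℓ (J i)) S P)
    -- the coefficients
    (E : Fin (r + 1) → IntermediateField ℚ (AlgebraicClosure ℚ)) [∀ i, FiniteDimensional ℚ (E i)]
    [∀ i, Normal ℚ (E i)] (bar : ∀ i, E i →+* E i)
    (hJ : ∀ i, (∀ a, bar i a = a) → (J i)ᵀ = -J i)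
    (hn : ∀ i, 0 < n i) (hN : ∀ i, N i = n i * Module.finrank ℚ (E i))
    (ε : ∀ i : Fin (r + 1), E i →+* Matrix (Fin (N i)) (Fin (N i)) ℚ)
    (hεJ : ∀ i a, (ε i a)ᵀ * J i = J i * ε i (bar i a))
    (hερ : ∀ (ℓ : ℕ) [Fact ℓ.Prime] (i : Fin (r + 1)) (a : E i) (γ : Γ),
      adic ℓ (ε i a) * ρ ℓ i γ = ρ ℓ i γ * adic ℓ (ε i a))
    -- the places
    (hgen : ∀ i, ∃ v, IsGenericPlace S (P i) (w i) v)
    (hplaces : ∀ i, EnoughPlaces (E i) (n i) (N i) S (P i))
    (hind : ∀ i j, i ≠ j → IsIndependent S (P i) (P j))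
    -- the determinants
    (v : HeightOneSpectrum (𝓞 K)) (hv : v ∉ S) (d : ∀ i, E i)
    (hd : ∀ (ℓ : ℕ) [Fact ℓ.Prime], (ℓ : 𝓞 K) ∉ v.asIdeal →
      ∀ σ : AbsoluteGaloisGroup K, IsFrobenius v σ → ∀ i, (∃ a, bar i a ≠ a) →
        HasDeterminant (n i) (((Rat.castHom ℚ_[ℓ]).mapMatrix).comp (ε i)) (ρ ℓ i (s σ⁻¹)) (d i))
    (hdi : AreIndependent bar d (Ideal.absNorm v.asIdeal))
    -- the Hodge structure
    (h : ℝ → ∀ i, Matrix (Fin (N i)) (Fin (N i)) ℝ)
    (hh : ∀ θ i, (h θ i)ᵀ * real (J i) * h θ i = real (J i) ∧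
      ∀ a, real (ε i a) * h θ i = h θ i * real (ε i a)) :
    HasDensityZero {ℓ | ∃ _ : Fact ℓ.Prime, ¬ TateClassesAreHodge h ℓ (χ ℓ) (ρ ℓ)} ∧
      -- the theorem of Larsen and Pink implies the statement for all primes
      (((∃ (ℓ : ℕ) (_ : Fact ℓ.Prime), TateClassesAreHodge h ℓ (χ ℓ) (ρ ℓ)) →
          ∀ (ℓ : ℕ) [Fact ℓ.Prime], TateClassesAreHodge h ℓ (χ ℓ) (ρ ℓ)) →
        ∀ (ℓ : ℕ) [Fact ℓ.Prime], TateClassesAreHodge h ℓ (χ ℓ) (ρ ℓ)) := by
  classical
  have hmain := MP_90d181_ag.IndependentDeterminants.result K Γ s hs S hS r N n w hw P χ ρ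
    (fun ℓ _ i => adic ℓ (J i)) hρ E bar (fun ℓ _ i hi => by
      show adic ℓ (J i)ᵀ = -adic ℓ (J i)
      rw [hJ i hi]
      ext a b
      simp [adic]) hn hN
    (fun ℓ _ i => ((Rat.castHom ℚ_[ℓ]).mapMatrix).comp (ε i)) (fun ℓ _ i => by
      refine ⟨hερ ℓ i, fun a => ?_, fun a => ?_⟩
      · have h1 := congrArg (adic ℓ) (hεJ i a)
        rw [MP_802513_ag.HodgeFromFrobenius.adic_eq, MP_802513_ag.HodgeFromFrobenius.adic_eq,
          map_mul, map_mul] at h1
        exact h1
      · have h1 := X274.HD.trace_of_field (hN i) (ε i) a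
        have h2 : (adic ℓ (ε i a)).trace = (((ε i a).trace : ℚ) : ℚ_[ℓ]) := by
          simp [adic, Matrix.trace]
        show (adic ℓ (ε i a)).trace = _
        rw [h2, h1]
        push_cast
        rfl) hgen hplaces hind v hv d hd hdi
  have hkey : ∀ (ℓ : ℕ) [Fact ℓ.Prime], AllTateClassesFromPairings ℓ (χ ℓ) (ρ ℓ)
      (fun i => ((Rat.castHom ℚ_[ℓ]).mapMatrix).comp (ε i)) (fun i => adic ℓ (J i)) →
      TateClassesAreHodge h ℓ (χ ℓ) (ρ ℓ) := by
    intro ℓ _ hall k m φ U hU hφ
    refine Submodule.span_mono ?_ (hall k m φ U hU hφ)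
    intro f hf
    obtain ⟨F, hF, rfl⟩ := val_of_product ℓ ε J hf
    refine ⟨fun t => F ℚ fun j => X274.HD.bas (t j), fun θ v => ?_, ?_⟩
    · have h1 := hF.coeff ℝ fun j i => h θ i *ᵥ v j i
      have h2 := hF.coeff ℝ v
      have h3 := hF.inv ℝ (h θ) (fun i => (hh θ i).1) (fun i a => (hh θ i).2 a) v
      show form ℝ _ _ = form ℝ _ _
      unfold form
      rw [← h1, ← h2, h3]
    · funext v
      exact hF.coeff ℚ_[ℓ] v
  have hdens : HasDensityZero {ℓ | ∃ _ : Fact ℓ.Prime, ¬ TateClassesAreHodge h ℓ (χ ℓ) (ρ ℓ)} := by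
    refine Y142.ZI.DensityZero.mono hmain ?_
    rintro ℓ ⟨hp, hno⟩
    exact ⟨hp, fun h => hno (hkey ℓ h)⟩
  refine ⟨hdens, fun hLP => hLP ?_⟩
  obtain ⟨ℓ, hℓ, hnot⟩ := MP_802513_ag.HodgeFromFrobenius.exists_good hdens
  have hp : Fact ℓ.Prime := ⟨hℓ⟩
  refine ⟨ℓ, hp, ?_⟩
  by_contra hno
  exact hnot ⟨hp, hno⟩

end Pool.Agent.Results.MP_33b3f9_ag.MumfordTateFromFrobenius
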