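import Pool.Agent.X312.FM.Split

/-!
# The splitting of one representation of the Mumford-Tate group gives many Tate classes on all `A
^ n`

Let `A` be **any** abelian variety over the algebraic closure of a finitely generated field, `ℓ` a
prime, and let `Hg` be the Hodge group of `A` and `G` the algebraic envelope of a small open
subgroup of the Galois group in `Hg` over `ℚ_ℓ`. Denote by `Hodge(A ^ n) ⊂ Tate(A ^ n)` the spaces
of the `ℚ_ℓ`-combinations of the Hodge classes and of the Tate classes of all codimensions on `A ^
n`. Let `b = 2 ^ (2 dim A)` be the sum of the Betti numbers of `A`.

Let `M` be an irreducible representation of `Hg` over `ℚ_ℓ` of dimension `D` which is cut out of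
the cohomology of `A ^ m` by an idempotent combination `e` of Hodge correspondences, and let `U ≠
0` be a subspace of `M` of dimension `d` which is stable under the Galois group. For all `n ≥ 1`

`d dim Tate(A ^ n) ≥ (D - 8 (m + 3) b ^ (m + 5) log (n + 1) / n) dim Hodge(A ^ n)`.

The conjecture Q1 says that always `U = M`. So if one irreducible representation `M` of the
Mumford-Tate group does not remain irreducible for the Galois group, then there are almost `D / d`
times more Tate classes than Hodge classes on all `A ^ n` (`n` large), with explicit constants. If
`dim Tate(A ^ n) < (D / d - ε) dim Hodge(A ^ n)` for one `n` then `M` has no stable subspace of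
dimension `d`; if `dim Tate(A ^ n) < (D - ε) dim Hodge(A ^ n)` then the Galois group has no
invariant in `M`. If Q1 is false for `A` then there is a pair `(M, U)` with `D ≥ 2` and `d = 1`,
as `G` is reductive and contains the centre of `Hg`.

The Galois representation `H(A ^ m)` is semisimple (Faltings), so `U` is the image of an
idempotent `f` with `f e = f`, `e f = f`, in the space of the Tate correspondences, and the
pairing on Tate classes is nondegenerate. Hodge classes on abelian varieties are Tate classes
(Deligne).

The proof. For `P = A ^ m` and every `Z` consider the trace form `(u, v) ↦ tr (e v u)` on the
Hodge correspondences `u : Z → P`, `v : P → Z` and the trace form `(u, v) ↦ tr (f v u)` on the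
Tate ones. If `tr (e v u) ≠ 0` then `e v' u e` is not nilpotent for some `v'`, so, `e` being
irreducible, it is invertible on the image of `e` and `f` factors through `u`; therefore the
kernel of the second form contains no `u` outside the kernel of the first, and the rank of the
first form is at most that of the second. For `Z = A ^ n` the first rank is at least `D - ε` times
the dimension of the space of Hodge classes and the second one at most `d + ε` times the dimension
of the space of Tate classes on `A ^ n`, by the log-convexity of the sequences of these dimensions
and by the symmetric group.
-/

set_option autoImplicit false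

open CategoryTheory AlgebraicGeometry

universe u v w

namespace Pool.Agent.Results.MP_33b3f9_ag.SplittingLaw

open Pool.Agent.H914 VarClass Obj WeilCohomology
open Pool.Agent.X312.FK (composite IrreducibleIn)
open Pool.Agent.X312.FC (corrRank)
open Pool.Agent.X312.FM (Family Has IsRingFamily IsSubfamily IsNondeg dimOn ratioBound)
open Pool.Agent.Y133.Half (pw)

variable {k : Type u} [Field k] {𝒱 : VarClass k} {ops : CycleOps 𝒱}
  {W : WeilCohomology.{u, v} ops}

/-- The sum of the Betti numbers of `X`. -/
noncomputable def totalBetti (W : WeilCohomology.{u, v} ops) (X : 𝒱.Obj) : ℕ :=
  Module.finrank W.K (W.H X)

/-- **The splitting law for two ring families.** In the intended use `X` is the abelian variety, `C` and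
`C'` are the families of the spaces of the Hodge classes and of the Tate classes (for other varieties one
takes the motivated classes in `C`), `e` is the projection to the irreducible representation `M` of the
Hodge group and `f` is a projection to the subspace `U` of `M` which is stable under the Galois group.
Here `corrRank e` is the dimension of the image of `e`, `dimOn C Z` is the dimension of `C Z`, and
`pw X m` is the product of `m + 1` copies of `X`. -/
theorem result (C C' : Family W) (hC : IsRingFamily C) (hC' : IsRingFamily C')
    (hle : IsSubfamily C C') (X : 𝒱.Obj) (hX : ∀ n, IsNondeg C (pw X n))
    (hX' : ∀ n, IsNondeg C' (pw X n)) (m : ℕ) (e f : W.H ((pw X m).prod (pw X m)))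
    (he : Has C e) (hee : composite W e e = e) (hirr : IrreducibleIn (Has C) e)
    (hf : Has C' f) (hff : composite W f f = f) (hef : composite W e f = f) (h0 : f ≠ 0)
    (n : ℕ) :
    ratioBound (corrRank e) (totalBetti W X) (dimOn C (pw X n)) m n ≤
      corrRank f * dimOn C' (pw X n) :=
  Pool.Agent.X312.FM.split_law hC hC' hle X hX hX' he hee hirr hf hff hef h0 n

end Pool.Agent.Results.MP_33b3f9_ag.SplittingLaw
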