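import Pool.Agent.X259.U.U39

set_option autoImplicit false

/-!
# The Mumford-Tate conjecture holds for an abelian variety, or there are almost twice as many Tate
# classes as Hodge classes in every degree above an explicit polynomial bound

Let `A` be an abelian variety of dimension `g ≥ 1`, of any type, over the algebraic closure `k` (in
the field of complex numbers) of a field `k₁` finitely generated over `ℚ`, with a model over `k₁`,
and let `ℓ` be a prime number. `W = H_1(A(ℂ), ℚ)` is the rational homology, `T` the tangent space,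
`per` the inclusion of `W` in `T`, and `ω₀` the Riemann form of a polarization.
`V = ℚ_ℓ ⊗ W` is the rational Tate module, with the continuous action `ρ` of the (compact) Galois
group `Γ` of `k₁` and with the Weil pairing `ω`, the extension of `ω₀`; `χ` is the cyclotomic
character.

The classes in `H^1(A) ^ {⊗ 2 m} (m)` are the multilinear forms in `2 m` variables (indexed by
`Fin m × Fin 2`) in `W` or `V`. Hodge classes are Tate classes (Deligne). As the groups are reductive
(Faltings), the Mumford-Tate conjecture says that for all `m` the Tate classes in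
`H^1(A) ^ {⊗ 2 m} (m)` (fixed by an open subgroup of the Galois group) are linear combinations of
Hodge classes.

**Theorem.** Let `c ≥ 1` and `m ≥ 1024 c g ^ 3 (⌊log₂ (8 g c)⌋ + 1)` be integers. The following are
equivalent:

1. **the Mumford-Tate conjecture holds for `A`** (and `ℓ`);
2. the Tate classes in `H^1(A) ^ {⊗ 2 m} (m)`, for this one `m`, are combinations of Hodge classes;
3. `dim Tate_m ≤ (2 - 1 / c) dim Hodge_m`, where `Tate_m` and `Hodge_m` are the spaces of the Tate
   classes and of the Hodge classes in `H^1(A) ^ {⊗ 2 m} (m)`.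

So the Mumford-Tate conjecture follows from one inequality between two integers, in a degree
which is polynomial in `g`, for example `dim Tate_m ≤ 1.5 dim Hodge_m` for one
`m ≥ 2048 g ^ 3 (⌊log₂ g⌋ + 5)`; and if the Mumford-Tate conjecture is not true for `A`
then the Tate classes outnumber the Hodge classes almost by the factor two in all large degrees:
`dim Tate_m > (2 - 1 / c) dim Hodge_m` for all `m` and `c` as above. (In the limit `m → ∞` this
is weak: the quotient then tends to infinity, by the asymptotics of the invariants of connected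
groups. The point of the theorem is the explicit bound, polynomial in `g`, which does not depend on
the groups.)

The hypotheses `hss`, `hF` (Faltings: semisimplicity and endomorphisms), `hD` (Deligne: Hodge
classes are Tate classes) and `hC` (the Mumford-Tate conjecture holds for the centres; Vasiu,
Ullmo-Yafaev) are theorems for all abelian varieties.

The proof. Suppose 3. The main step is that all Tate classes in `H^1(A) ^ {⊗ 4} (2)` are
combinations of Hodge classes; this does not use `hss`, `hF`, `hC`. We embed `ℚ_ℓ` in the field of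
complex numbers. The complex Hodge tensors are the invariants of a compact group `G` of unitary
symplectic matrices (positivity of the polarization, first fundamental theorem, Haar
integration). The complex Tate tensors are a family which is stable under permutations,
products and contractions, but there is no positivity. Suppose that there is a Tate tensor `F ≠ 0`
of degree four which is orthogonal to the invariants of `G`. The operator
`M = ∫ ⟨F, g F⟩ g dg` on the tensors of degree `2 m` is the average over `G` of `x ⊗ F^*`,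
contracted with `F`; so its values are Tate tensors, and it vanishes after averaging over `G`. If `P`
and `E` are the orthogonal projectors onto the Tate tensors and the Hodge tensors, then
`M = (P - E) M` up to trace zero, and since `|⟨F, g F⟩| ≤ ⟨F, F⟩`, and `g` is unitary,
`tr M ≤ ⟨F, F⟩ (dim Tate_m - dim Hodge_m)`. On the other hand, the trace is
`∫ ⟨F, g F⟩ (tr g) ^ {2 m} dg`; if the eigenvalues of `g` or `- g` have arguments at most `θ` then
`Re ⟨F, g F⟩ ≥ cos (4 θ) ⟨F, F⟩`, and otherwise `|tr g| ≤ 2 g - 2 (1 - cos θ)`. Hence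
`dim Tate_m ≥ (1 + cos (4 θ)) dim Hodge_m - 2 (2 g - 2 (1 - cos θ)) ^ {2 m}`, and
`dim Hodge_m ≥ (2 g) ^ {2 m} / (m + 1) ^ {4 g ^ 2}`, a contradiction for `θ ^ 2 = 1 / (16 c)`. So the
Tate classes in `H^1(A) ^ {⊗ 4} (2)` are combinations of Hodge classes; one of them is the Casimir
class of the Lie algebra of the Galois group, which decides the Mumford-Tate conjecture
(`CasimirDecides`: an endomorphism which annihilates the Hodge classes acts on the Lie
algebra by a derivation, which is inner, and the centre is known).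
-/

noncomputable section

namespace Pool.Agent.Results.MP_33b3f9_ag.TwiceAsManyTateClasses

open Module TensorProduct Pool.Agent.H204R3.GP Pool.Agent.W516.MTD

variable {ℓ : ℕ} [Fact ℓ.Prime] {W T : Type} [AddCommGroup W] [Module ℚ W] [AddCommGroup T]
  [Module ℂ T] {Γ : Type} [Group Γ]

/-- The rational classes in `H^1(A) ^ {⊗ 2 m} (m)`. -/
abbrev RatForm (W : Type) [AddCommGroup W] [Module ℚ W] (m : ℕ) : Type :=
  MultilinearMap ℚ (fun _ : Fin m × Fin 2 => W) ℚ

/-- The classes in `H^1(A, ℚ_ℓ) ^ {⊗ 2 m} (m)`. -/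
abbrev Form (ℓ : ℕ) [Fact ℓ.Prime] (W : Type) [AddCommGroup W] [Module ℚ W] (m : ℕ) : Type :=
  MultilinearMap ℚ_[ℓ] (fun _ : Fin m × Fin 2 => ℚ_[ℓ] ⊗[ℚ] W) ℚ_[ℓ]

/-- The space of the Hodge classes in `H^1(A) ^ {⊗ 2 m} (m)`. -/
def HodgeSpace (per : W →+ T) (m : ℕ) : Submodule ℚ (RatForm W m) where
  carrier := {ψ | IsHodgeTensor per ψ}
  zero_mem' := ⟨0, fun _ => by simp, fun _ _ _ => rfl⟩
  add_mem' := by
    rintro a b ⟨A, hA, hA'⟩ ⟨B, hB, hB'⟩
    refine ⟨A + B, fun v => ?_, fun z hz u => ?_⟩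
    · rw [add_apply, add_apply, hA, hB]
      push_cast
      rfl
    · rw [add_apply, add_apply, hA' z hz, hB' z hz]
  smul_mem' := by
    rintro c a ⟨A, hA, hA'⟩
    refine ⟨(c : ℝ) • A, fun v => ?_, fun z hz u => ?_⟩
    · rw [smul_apply, smul_apply, hA, smul_eq_mul, smul_eq_mul]
      push_cast
      rfl
    · rw [smul_apply, smul_apply, hA' z hz]

/-- The space of the Tate classes in `H^1(A, ℚ_ℓ) ^ {⊗ 2 m} (m)`. -/
def TateSpace (ρ : Representation ℚ_[ℓ] Γ (ℚ_[ℓ] ⊗[ℚ] W)) (χ : Γ →* ℚ_[ℓ]) (m : ℕ) :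
    Submodule ℚ_[ℓ] (Form ℓ W m) where
  carrier := {φ | IsTateTensor ρ χ m φ}
  zero_mem' := ⟨⊤, inferInstance, fun s _ v => by simp⟩
  add_mem' := by
    rintro a b ⟨Δ, hΔ, h⟩ ⟨Δ', hΔ', h'⟩
    refine ⟨Δ ⊓ Δ', inferInstance, fun s hs v => ?_⟩
    rw [add_apply, add_apply, h s hs.1, h' s hs.2, mul_add]
  smul_mem' := by
    rintro c a ⟨Δ, hΔ, h⟩
    refine ⟨Δ, hΔ, fun s hs v => ?_⟩
    rw [smul_apply, smul_apply, h s hs, smul_eq_mul, smul_eq_mul, mul_left_comm]

/-- The Tate classes in `H^1(A) ^ {⊗ 2 m} (m)` are linear combinations of Hodge classes. -/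
def TateIsHodge (per : W →+ T) (ρ : Representation ℚ_[ℓ] Γ (ℚ_[ℓ] ⊗[ℚ] W)) (χ : Γ →* ℚ_[ℓ])
    (m : ℕ) : Prop :=
  ∀ φ : Form ℓ W m, IsTateTensor ρ χ m φ → IsHodgeCombination per φ

/-- **The dimensions in one degree decide.** -/
theorem result [FiniteDimensional ℚ W] (g : ℕ) (hg : 1 ≤ g) (hT : finrank ℂ T = g)
    -- the complex torus `A(ℂ)` with a polarization
    (per : W →+ T) (hper : IsRationalStructure per)
    (ω₀ : W →ₗ[ℚ] W →ₗ[ℚ] ℚ) (hω₀ : IsRiemannForm per ω₀)
    -- the Galois group, its action on the Tate module and the Weil pairing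
    [TopologicalSpace Γ] [IsTopologicalGroup Γ] [CompactSpace Γ]
    (ρ : Representation ℚ_[ℓ] Γ (ℚ_[ℓ] ⊗[ℚ] W))
    (hρ : ∀ (v : ℚ_[ℓ] ⊗[ℚ] W) (f : ℚ_[ℓ] ⊗[ℚ] W →ₗ[ℚ_[ℓ]] ℚ_[ℓ]), Continuous fun s => f (ρ s v))
    (χ : Γ →* ℚ_[ℓ]) (hχ : Continuous χ)
    (ω : ℚ_[ℓ] ⊗[ℚ] W →ₗ[ℚ_[ℓ]] ℚ_[ℓ] ⊗[ℚ] W →ₗ[ℚ_[ℓ]] ℚ_[ℓ])
    (hωω : ∀ u v : W, ω ((1 : ℚ_[ℓ]) ⊗ₜ[ℚ] u) ((1 : ℚ_[ℓ]) ⊗ₜ[ℚ] v) = ((ω₀ u v : ℚ) : ℚ_[ℓ]))
    (hωρ : ∀ s u v, ω (ρ s u) (ρ s v) = χ s * ω u v)
    -- the theorems of Faltings and Deligne and the theorem on centres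
    (hss : Semisimple ρ) (hF : Faltings per ρ) (hD : Deligne per ρ χ) (hC : Centres per ρ χ)
    -- the degree
    (c m : ℕ) (hc : 1 ≤ c) (hm : 1024 * c * g ^ 3 * (Nat.log 2 (8 * g * c) + 1) ≤ m) :
    List.TFAE [
      ∀ m' : ℕ, TateIsHodge per ρ χ m',
      TateIsHodge per ρ χ m,
      c * finrank ℚ_[ℓ] (TateSpace ρ χ m) ≤ (2 * c - 1) * finrank ℚ (HodgeSpace per m)] := by
  classical
  have hωω' : ∀ u v : W, ω ((1 : ℚ_[ℓ]) ⊗ₜ[ℚ] u) ((1 : ℚ_[ℓ]) ⊗ₜ[ℚ] v) =
      algebraMap ℚ ℚ_[ℓ] (ω₀ u v) := fun u v => by rw [hωω, eq_ratCast]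
  have hnt := Pool.Agent.X259.Q.trace_nondeg per ρ χ ω₀ ω hper hω₀ hωω' hωρ hD hF hss hC hρ hχ
  obtain ⟨hinv, hdec⟩ := Pool.Agent.X259.Q.casimir_decides per ρ χ ω₀ ω hper hω₀ hωω' hωρ hD hF hC
    hρ hχ hnt
  set 𝔤 := Pool.Agent.H204R3.SP.lieT ρ χ with h𝔤
  set Θ := Pool.Agent.W516.KC2.casimir 𝔤 hnt ω with hΘ
  have htate : IsTateTensor ρ χ 2 Θ := ⟨⊤, inferInstance, fun s _ v => hinv s v⟩
  obtain ⟨β, β', hβ⟩ := Pool.Agent.X259.T.exists_dual hper hω₀
  have hd := Pool.Agent.X259.T.finrank_two hper hT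
  have hcl := Pool.Agent.X259.T.closed_hodge hper hω₀ hβ
  tfae_have 1 → 2 := fun h => h m
  tfae_have 2 → 3 := by
    intro h
    have h1 : TateSpace ρ χ m ≤ Submodule.span ℚ_[ℓ] {φ' : Form ℓ W m |
        ∃ ψ ∈ HodgeSpace per m, ∀ v : Fin m × Fin 2 → W,
          φ' (fun l => (1 : ℚ_[ℓ]) ⊗ₜ[ℚ] v l) = ((ψ v : ℚ) : ℚ_[ℓ])} := fun φ hφ => h φ hφ
    have h2 := (Submodule.finrank_mono h1).trans
      (Pool.Agent.X259.U.finrank_comb_le (ℓ := ℓ) (HodgeSpace per m))
    exact Nat.mul_le_mul (by omega) h2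
  tfae_have 3 → 1 := by
    intro h
    refine hdec (Pool.Agent.X259.Q.mem_of_fcmp (Pool.Agent.X259.T.Hd per 2) fun lam => ?_)
    refine Pool.Agent.X259.U.tate_low hper hω₀ hβ hωω hωρ hcl (fun m ψ hψ => hψ)
      (fun m ψ hψ φ hφ => hD m ψ hψ φ hφ) (by omega) (r := 2) (k := c) (m := m) (by norm_num) hc ?_
      (TT := TateSpace ρ χ m) (fun φ hφ => hφ) h (le_refl 2) Θ htate lam
    rw [hd]
    have h1 : 2 * (2 * g) * c * 2 = 8 * g * c := by ring
    rw [h1]
    convert hm using 1
    ring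
  tfae_finish

end Pool.Agent.Results.MP_33b3f9_ag.TwiceAsManyTateClasses
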